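import Pool.Agent.Q185.ScaleInv.Line

/-!
MP_6f70ff_gt: vertex transitive sub scale invariant graphs.
-/

namespace Pool.Agent.Results.MP_6f70ff_gt.SubScaleInvariantDoubling

open Pool.Agent.Q185.ScaleInv

universe u

/-- 1. If a vertex transitive graph does not have volume doubling, then `C_k ≥ 2` for every `k`
and every `k`-net graph.
2. Hence every vertex transitive sub scale invariant graph has volume doubling.
3. The two-way infinite path is a vertex transitive sub scale invariant graph (its constants `C_k`
are all equal to `1`). -/
theorem result :
    (∀ (V : Type u) (G : SimpleGraph V), G.Connected → (∀ v, (G.neighborSet v).Finite) →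
      VertexTransitive G → ¬ VolumeDoubling G →
      ∀ (k : ℕ) (N : Set V), 1 ≤ k → IsNet G k N → 2 ≤ roughConst G (netGraph G k N)) ∧
    (∀ (V : Type u) (G : SimpleGraph V), G.Connected → (∀ v, (G.neighborSet v).Finite) →
      VertexTransitive G → SubScaleInvariant G → VolumeDoubling G) ∧
    (line.Connected ∧ (∀ v, (line.neighborSet v).Finite) ∧ VertexTransitive line ∧
      (∀ (k : ℕ) (N : Set ℤ), 1 ≤ k → IsNet line k N → roughConst line (netGraph line k N) = 1) ∧
      SubScaleInvariant line) := by
  refine ⟨fun V G hG hf hT hD k N hk hN => ?_, fun V G hG hf hT hS => doubling_of_sub hG hf hT hS,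
    line_connected, line_finite, line_transitive, fun k N hk hN => line_const hk hN, line_sub⟩
  by_contra hlt
  exact hD (doubling hG hf hT hk hN (not_le.1 hlt))

end Pool.Agent.Results.MP_6f70ff_gt.SubScaleInvariantDoubling
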